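import Pool.Agent.Helper2.C5.Symm
import Pool.Agent.Helper85.EV4.Win

/-!
# Doubled diagrams

`dbl nab E z`: the value at `z` of the diagram in which every positive crossing of `E` is replaced by two parallel crossings (`σ² = 1 + z σ`). It is the sum over the one-component states `C` of
`z ^ |L \ C| * (1 + z ^ 2) ^ j(C)`, and the distribution of `j(C)` is symmetric. Hence `|dbl z|` is exponentially smaller than `dbl |z|` off the real axis.
-/

set_option autoImplicit false

namespace Pool.Agent.Helper2.C5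

open Polynomial Classical Pool.Agent.Helper85.Exp Pool.Agent.Helper60.EV2 Pool.Agent.Helper43.Pln

variable {P : Type} {G : Sh P}

/-- Positive or smoothed. -/
def PS (D : Dg G) : Prop := ∀ i, D.st i = .pos ∨ D.st i = .smooth

theorem PS.sm {D : Dg G} (h : PS D) (A : Finset P) : PS (D.sm A) := by
  intro i
  by_cases h1 : i ∈ A ∨ G.op i ∈ A
  · exact Or.inr (sm_st_mem D A i h1)
  · rw [not_or] at h1
    rw [sm_st_not D A i h1.1 h1.2]
    exact h i

variable [Fintype P]

/-- The states. -/
noncomputable def stt (E : Dg G) (b : P) : Finset (Finset P) := (lows E).powerset.filter fun C => One (E.sm C) b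

theorem mem_stt {E : Dg G} {b : P} {C : Finset P} : C ∈ stt E b ↔ C ⊆ lows E ∧ One (E.sm C) b := by
  unfold stt
  rw [Finset.mem_filter, Finset.mem_powerset]

omit [Fintype P] in
/-- The number of the smoothed crossings whose lower passage is visited first. -/
noncomputable def jn (E : Dg G) (b : P) (C : Finset P) : ℕ := (C.filter fun i => Fv (E.sm C) b i).card

omit [Fintype P] in
theorem jn_le (E : Dg G) (b : P) (C : Finset P) : jn E b C ≤ C.card := Finset.card_filter_le _ _

/-- The value of the doubled diagram. -/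
noncomputable def dbl {K : Type} [Field K] (nab : Dg G → ℤ[X]) (E : Dg G) (z : K) : K :=
  ∑ A ∈ (lows E).powerset, z ^ (lows E \ A).card * aeval z (nab (E.sm A))

omit [Fintype P] in
theorem prod_jn {K : Type} [Field K] (E : Dg G) (b : P) (C : Finset P) (s t : K) :
    ∏ i ∈ C, (s * (if Fv (E.sm C) b i then t else 1)) = s ^ C.card * t ^ jn E b C := by
  rw [Finset.prod_mul_distrib, Finset.prod_const, Finset.prod_ite, Finset.prod_const, Finset.prod_const, one_pow, mul_one]
  rfl

omit [Fintype P] in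
theorem prod_jn' {K : Type} [Field K] (E : Dg G) (b : P) (C : Finset P) (s t : K) :
    ∏ i ∈ C, (s * (if Fv (E.sm C) b i then 1 else t)) = s ^ C.card * t ^ (C.card - jn E b C) := by
  rw [Finset.prod_mul_distrib, Finset.prod_const, Finset.prod_ite, Finset.prod_const, Finset.prod_const, one_pow, one_mul]
  congr 2
  have h := Finset.card_filter_add_card_filter_not (s := C) (fun i => Fv (E.sm C) b i)
  unfold jn
  omega

theorem pow_sdiff {K : Type} [Field K] {z : K} (hz : z ≠ 0) {L C : Finset P} (h : C ⊆ L) : z ^ (L \ C).card = z ^ L.card * (z⁻¹) ^ C.card := by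
  rw [Finset.card_sdiff_of_subset h, pow_sub₀ z hz (Finset.card_le_card h), inv_pow]

/-- **The state formula of the doubled diagram.** -/
theorem dbl_state {K : Type} [Field K] {nab : Dg G → ℤ[X]} (hn : Cs nab) (b : P) {E : Dg G} (hE : PS E) {z : K} (hz : z ≠ 0) :
    dbl nab E z = ∑ C ∈ stt E b, z ^ (lows E \ C).card * (1 + z ^ 2) ^ jn E b C := by
  have h1 := (hn.cw b).map (aeval z : ℤ[X] →ₐ[ℤ] K).toRingHom
  have h2 := weighted h1 E (fun i _ => hE i) (fun _ => z⁻¹)
  have e1 : (aeval z : ℤ[X] →ₐ[ℤ] K).toRingHom X = z := aeval_X z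
  have e2 : (aeval z : ℤ[X] →ₐ[ℤ] K).toRingHom 1 = 1 := map_one _
  rw [e1, e2] at h2
  have h3 : dbl nab E z = z ^ (lows E).card * ∑ A ∈ (lows E).powerset, (∏ i ∈ A, z⁻¹) *
      (aeval z : ℤ[X] →ₐ[ℤ] K).toRingHom (nab (E.sm A)) := by
    unfold dbl
    rw [Finset.mul_sum]
    refine Finset.sum_congr rfl fun A hA => ?_
    rw [Finset.mem_powerset] at hA
    rw [pow_sdiff hz hA, Finset.prod_const, mul_assoc]
    rfl
  rw [h3, h2, Finset.mul_sum]
  refine Finset.sum_congr rfl fun C hC => ?_
  replace hC := mem_stt.1 hC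
  have h4 : ∏ i ∈ C, (z⁻¹ + if Fv (E.sm C) b i then z else 0) = ∏ i ∈ C, (z⁻¹ * (if Fv (E.sm C) b i then 1 + z ^ 2 else 1)) := by
    refine Finset.prod_congr rfl fun i _ => ?_
    split_ifs
    · field_simp
    · rw [add_zero, mul_one]
  rw [h4, prod_jn, pow_sdiff hz hC.1, one_mul, mul_assoc]

/-- **The symmetry.** -/
theorem dbl_symm (hG : Plane G) {nab : Dg G → ℤ[X]} (hn : Cs nab) (b : P) {E : Dg G} (hE : PS E) {r : ℝ} (hr : r ≠ 0) (s t : ℝ) :
    ∑ C ∈ stt E b, r ^ (lows E \ C).card * (s ^ C.card * t ^ jn E b C) =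
      ∑ C ∈ stt E b, r ^ (lows E \ C).card * (s ^ C.card * t ^ (C.card - jn E b C)) := by
  have h1 := symm_state hG hn b E (fun i _ => hE i) (((s / r * (t - 1) : ℝ)) : ℂ) (fun _ => ((s / r : ℝ) : ℂ))
  have e1 : ∀ C : Finset P, ∏ i ∈ C, (((s / r : ℝ) : ℂ) + if Fv (E.sm C) b i then (((s / r * (t - 1) : ℝ)) : ℂ) else 0) =
      (((s / r) ^ C.card * t ^ jn E b C : ℝ) : ℂ) := by
    intro C
    rw [← prod_jn E b C (s / r) t]
    rw [Complex.ofReal_prod]
    refine Finset.prod_congr rfl fun i _ => ?_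
    split_ifs
    · push_cast
      ring
    · push_cast
      ring
  have e2 : ∀ C : Finset P, ∏ i ∈ C, (((s / r : ℝ) : ℂ) + if Fv (E.sm C) b i then 0 else (((s / r * (t - 1) : ℝ)) : ℂ)) =
      (((s / r) ^ C.card * t ^ (C.card - jn E b C) : ℝ) : ℂ) := by
    intro C
    rw [← prod_jn' E b C (s / r) t]
    rw [Complex.ofReal_prod]
    refine Finset.prod_congr rfl fun i _ => ?_
    split_ifs
    · push_cast
      ring
    · push_cast
      ring
  simp only [e1, e2] at h1
  rw [← Complex.ofReal_sum, ← Complex.ofReal_sum, Complex.ofReal_inj] at h1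
  have e3 : ∀ C ∈ stt E b, ∀ u : ℝ, r ^ (lows E \ C).card * (s ^ C.card * u) = r ^ (lows E).card * ((s / r) ^ C.card * u) := by
    intro C hC u
    rw [pow_sdiff hr (mem_stt.1 hC).1, div_eq_mul_inv, mul_pow]
    ring
  rw [Finset.sum_congr rfl fun C hC => e3 C hC _, Finset.sum_congr rfl fun C hC => e3 C hC _, ← Finset.mul_sum, ← Finset.mul_sum]
  unfold stt
  rw [h1]

end Pool.Agent.Helper2.C5
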