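import Pool.Agent.Helper2.C5.Dbl

/-!
# Doubled diagrams: the bounds
-/

set_option autoImplicit false

namespace Pool.Agent.Helper2.C5

open Polynomial Classical Pool.Agent.Helper85.Exp Pool.Agent.Helper60.EV2 Pool.Agent.Helper43.Pln

/-! ### Two powers -/

theorem gain_aux {a B lam : ℝ} (h0 : 0 ≤ lam) (h1 : lam ≤ 1) (h2 : 1 ≤ lam * B) (h3 : a = lam ^ 2 * B) (k : ℕ) :
    1 + a ^ k ≤ lam ^ k * (1 + B ^ k) := by
  have e1 : lam ^ k ≤ 1 := pow_le_one₀ h0 h1
  have e2 : 1 ≤ lam ^ k * B ^ k := by rw [← mul_pow]; exact one_le_pow₀ h2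
  have e3 : a ^ k = lam ^ k * (lam ^ k * B ^ k) := by rw [h3, mul_pow, ← pow_mul, mul_comm 2 k, pow_mul, sq, mul_assoc]
  rw [e3]
  nlinarith [mul_nonneg (sub_nonneg.2 e1) (sub_nonneg.2 e2)]

theorem gain {a B lam : ℝ} (h0 : 0 ≤ lam) (h1 : lam ≤ 1) (h2 : 1 ≤ lam * B) (h3 : a = lam ^ 2 * B) (hB : 0 ≤ B) {j M : ℕ} (hj : j ≤ M) :
    a ^ j + a ^ (M - j) ≤ lam ^ M * (B ^ j + B ^ (M - j)) := by
  have key : ∀ i k : ℕ, a ^ i + a ^ (i + k) ≤ lam ^ (i + (i + k)) * (B ^ i + B ^ (i + k)) := by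
    intro i k
    have e1 := gain_aux h0 h1 h2 h3 k
    have e2 : 0 ≤ a ^ i := by rw [h3]; positivity
    have e3 : a ^ i = lam ^ (i + i) * B ^ i := by rw [h3, mul_pow, ← pow_mul, two_mul]
    calc a ^ i + a ^ (i + k) = a ^ i * (1 + a ^ k) := by rw [pow_add]; ring
      _ ≤ a ^ i * (lam ^ k * (1 + B ^ k)) := mul_le_mul_of_nonneg_left e1 e2
      _ = lam ^ (i + (i + k)) * (B ^ i + B ^ (i + k)) := by
        rw [e3, pow_add, pow_add, pow_add, pow_add]
        ring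
  rcases le_total j (M - j) with h | h
  · have h4 := key j (M - j - j)
    rw [show j + (M - j - j) = M - j by omega, show j + (M - j) = M by omega] at h4
    exact h4
  · have h4 := key (M - j) (j - (M - j))
    rw [show M - j + (j - (M - j)) = j by omega, show M - j + j = M by omega] at h4
    rw [add_comm (a ^ j), add_comm (B ^ j)]
    exact h4

variable {P : Type} {G : Sh P} [Fintype P]

/-- The gain. -/
theorem gain_sum (hG : Plane G) {nab : Dg G → ℤ[X]} (hn : Cs nab) (b : P) {E : Dg G} (hE : PS E) {r : ℝ} (hr : 0 < r) {a B lam : ℝ}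
    (h0 : 0 ≤ lam) (h1 : lam ≤ 1) (h2 : 1 ≤ lam * B) (h3 : a = lam ^ 2 * B) (hB : 0 ≤ B) :
    ∑ C ∈ stt E b, r ^ (lows E \ C).card * a ^ jn E b C ≤ ∑ C ∈ stt E b, r ^ (lows E \ C).card * (lam ^ C.card * B ^ jn E b C) := by
  have e1 := dbl_symm hG hn b hE hr.ne' 1 a
  have e2 := dbl_symm hG hn b hE hr.ne' lam B
  simp only [one_pow, one_mul] at e1
  have e3 : ∑ C ∈ stt E b, (r ^ (lows E \ C).card * a ^ jn E b C + r ^ (lows E \ C).card * a ^ (C.card - jn E b C)) ≤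
      ∑ C ∈ stt E b, (r ^ (lows E \ C).card * (lam ^ C.card * B ^ jn E b C) + r ^ (lows E \ C).card * (lam ^ C.card * B ^ (C.card - jn E b C))) := by
    refine Finset.sum_le_sum fun C _ => ?_
    rw [← mul_add, ← mul_add, ← mul_add]
    exact mul_le_mul_of_nonneg_left (gain h0 h1 h2 h3 hB (jn_le E b C)) (by positivity)
  rw [Finset.sum_add_distrib, Finset.sum_add_distrib, ← e1, ← e2] at e3
  linarith

/-- Small and large states. -/
theorem split_sum (b : P) (E : Dg G) {r lam τ : ℝ} (hr : 0 < r) (h0 : 0 ≤ lam) (h1 : lam ≤ 1) (hτ0 : 0 < τ) (hτ1 : τ ≤ 1) (m : ℕ) :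
    ∑ C ∈ stt E b, r ^ (lows E \ C).card * (lam ^ C.card * (1 + r ^ 2) ^ jn E b C) ≤
      lam ^ m * ∑ C ∈ stt E b, r ^ (lows E \ C).card * (1 + r ^ 2) ^ jn E b C +
        (1 + τ) ^ (lows E).card * r ^ (lows E).card * (r + r⁻¹) ^ m / τ ^ m := by
  have hrr : 1 ≤ r + r⁻¹ := by
    have h5 := inv_pos.2 hr
    have h6 : r * r⁻¹ = 1 := mul_inv_cancel₀ hr.ne'
    rcases le_total 1 r with h | h
    · linarith
    · have := one_le_inv₀ hr |>.2 h
      linarith
  have h2 : ∀ C ∈ stt E b, r ^ (lows E \ C).card * (lam ^ C.card * (1 + r ^ 2) ^ jn E b C) ≤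
      lam ^ m * (r ^ (lows E \ C).card * (1 + r ^ 2) ^ jn E b C) + (∏ _i ∈ C, τ) * (r ^ (lows E).card * (r + r⁻¹) ^ m / τ ^ m) := by
    intro C hC
    have hCL := (mem_stt.1 hC).1
    rcases le_or_gt m C.card with h | h
    · have e1 : lam ^ C.card ≤ lam ^ m := pow_le_pow_of_le_one h0 h1 h
      have e2 : 0 ≤ (∏ _i ∈ C, τ) * (r ^ (lows E).card * (r + r⁻¹) ^ m / τ ^ m) := by
        have : 0 ≤ ∏ _i ∈ C, τ := Finset.prod_nonneg fun _ _ => hτ0.le
        positivity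
      have e3 : r ^ (lows E \ C).card * (lam ^ C.card * (1 + r ^ 2) ^ jn E b C) ≤
          lam ^ m * (r ^ (lows E \ C).card * (1 + r ^ 2) ^ jn E b C) := by
        calc r ^ (lows E \ C).card * (lam ^ C.card * (1 + r ^ 2) ^ jn E b C) = lam ^ C.card * (r ^ (lows E \ C).card * (1 + r ^ 2) ^ jn E b C) := by ring
          _ ≤ _ := mul_le_mul_of_nonneg_right e1 (by positivity)
      linarith
    · have e1 : lam ^ C.card ≤ 1 := pow_le_one₀ h0 h1
      have e0 : (0 : ℝ) ≤ lam ^ m * (r ^ (lows E \ C).card * (1 + r ^ 2) ^ jn E b C) := by positivity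
      have e2 : r ^ (lows E \ C).card * (lam ^ C.card * (1 + r ^ 2) ^ jn E b C) ≤ r ^ (lows E).card * (r + r⁻¹) ^ m := by
        calc r ^ (lows E \ C).card * (lam ^ C.card * (1 + r ^ 2) ^ jn E b C)
            ≤ r ^ (lows E \ C).card * (1 * (1 + r ^ 2) ^ C.card) := by
              refine mul_le_mul_of_nonneg_left ?_ (by positivity)
              refine mul_le_mul e1 (pow_le_pow_right₀ (by nlinarith) (jn_le E b C)) (by positivity) zero_le_one
          _ = r ^ (lows E).card * (r + r⁻¹) ^ C.card := by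
              rw [pow_sdiff hr.ne' hCL, one_mul, mul_assoc, ← mul_pow]
              congr 2
              field_simp
              ring
          _ ≤ r ^ (lows E).card * (r + r⁻¹) ^ m := mul_le_mul_of_nonneg_left (pow_le_pow_right₀ hrr h.le) (by positivity)
      have e3 : 1 ≤ (∏ _i ∈ C, τ) / τ ^ m := by
        rw [Finset.prod_const, le_div_iff₀ (by positivity), one_mul]
        exact pow_le_pow_of_le_one hτ0.le hτ1 h.le
      have e4 : r ^ (lows E).card * (r + r⁻¹) ^ m ≤ (∏ _i ∈ C, τ) * (r ^ (lows E).card * (r + r⁻¹) ^ m / τ ^ m) := by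
        calc r ^ (lows E).card * (r + r⁻¹) ^ m = 1 * (r ^ (lows E).card * (r + r⁻¹) ^ m) := by ring
          _ ≤ (∏ _i ∈ C, τ) / τ ^ m * (r ^ (lows E).card * (r + r⁻¹) ^ m) := mul_le_mul_of_nonneg_right e3 (by positivity)
          _ = _ := by ring
      linarith
  refine (Finset.sum_le_sum h2).trans ?_
  rw [Finset.sum_add_distrib, ← Finset.mul_sum, ← Finset.sum_mul]
  have h3 : ∑ C ∈ stt E b, ∏ _i ∈ C, τ ≤ (1 + τ) ^ (lows E).card := by
    have h4 : ∑ C ∈ (lows E).powerset, ∏ _i ∈ C, τ = (1 + τ) ^ (lows E).card := by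
      rw [← Finset.prod_const, add_comm, Finset.prod_add]
      refine Finset.sum_congr rfl fun C _ => ?_
      rw [Finset.prod_const_one, mul_one]
    rw [← h4]
    refine Finset.sum_le_sum_of_subset_of_nonneg (Finset.filter_subset _ _) fun C _ _ => Finset.prod_nonneg fun _ _ => hτ0.le
  have h5 : (∑ C ∈ stt E b, ∏ _i ∈ C, τ) * (r ^ (lows E).card * (r + r⁻¹) ^ m / τ ^ m) ≤
      (1 + τ) ^ (lows E).card * (r ^ (lows E).card * (r + r⁻¹) ^ m / τ ^ m) := mul_le_mul_of_nonneg_right h3 (by positivity)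
  calc _ ≤ lam ^ m * ∑ C ∈ stt E b, r ^ (lows E \ C).card * (1 + r ^ 2) ^ jn E b C +
      (1 + τ) ^ (lows E).card * (r ^ (lows E).card * (r + r⁻¹) ^ m / τ ^ m) := by linarith
    _ = _ := by ring

/-- **(I1)** -/
theorem dbl_le (hG : Plane G) {nab : Dg G → ℤ[X]} (hn : Cs nab) {E : Dg G} (hE : PS E) {z : ℂ} (hz : z ≠ 0) {lam τ : ℝ}
    (h0 : 0 ≤ lam) (h1 : lam ≤ 1) (h2 : 1 ≤ lam * (1 + ‖z‖ ^ 2)) (h3 : ‖1 + z ^ 2‖ ≤ lam ^ 2 * (1 + ‖z‖ ^ 2)) (hτ0 : 0 < τ) (hτ1 : τ ≤ 1) (m : ℕ) :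
    ‖dbl nab E z‖ ≤ lam ^ m * dbl nab E ‖z‖ + (1 + τ) ^ (lows E).card * ‖z‖ ^ (lows E).card * (‖z‖ + ‖z‖⁻¹) ^ m / τ ^ m := by
  obtain ⟨b⟩ := nonempty_of hG
  have hr : 0 < ‖z‖ := norm_pos_iff.2 hz
  rw [dbl_state hn b hE hz, dbl_state hn b hE hr.ne']
  calc ‖∑ C ∈ stt E b, z ^ (lows E \ C).card * (1 + z ^ 2) ^ jn E b C‖
      ≤ ∑ C ∈ stt E b, ‖z‖ ^ (lows E \ C).card * (lam ^ 2 * (1 + ‖z‖ ^ 2)) ^ jn E b C := by
        refine (norm_sum_le _ _).trans (Finset.sum_le_sum fun C _ => ?_)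
        rw [norm_mul, norm_pow, norm_pow]
        exact mul_le_mul_of_nonneg_left (pow_le_pow_left₀ (norm_nonneg _) h3 _) (by positivity)
    _ ≤ ∑ C ∈ stt E b, ‖z‖ ^ (lows E \ C).card * (lam ^ C.card * (1 + ‖z‖ ^ 2) ^ jn E b C) :=
        gain_sum hG hn b hE hr h0 h1 h2 rfl (by positivity)
    _ ≤ _ := split_sum b E hr h0 h1 hτ0 hτ1 m

/-! ### Real values -/

theorem nn_real {nab : Dg G → ℤ[X]} (hn : Cs nab) (b : P) {D : Dg G} (hD : PS D) {r : ℝ} (hr : 0 ≤ r) : 0 ≤ aeval r (nab D) :=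
  have : Nonempty P := ⟨b⟩
  Pool.Agent.Helper85.EV4.aeval_nn (Pool.Agent.Helper85.EV4.nn_pos hn D hD) hr

theorem one_le_real {nab : Dg G → ℤ[X]} (hn : Cs nab) {b : P} {D : Dg G} (hD : PS D) (h1 : One D b) {r : ℝ} (hr : 0 ≤ r) :
    1 ≤ aeval r (nab D) := by
  have h := (hn.cw b).map (aeval r : ℤ[X] →ₐ[ℤ] ℝ).toRingHom
  have e1 : (aeval r : ℤ[X] →ₐ[ℤ] ℝ).toRingHom X = r := aeval_X r
  have e2 : (aeval r : ℤ[X] →ₐ[ℤ] ℝ).toRingHom 1 = 1 := map_one _
  have h2 := expand h D (fun i _ => hD i)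
  rw [e1, e2] at h2
  have h3 : aeval r (nab D) = ∑ S ∈ (unv D b 0).powerset.filter (fun S => Asc D b S), 1 * r ^ S.card := h2
  rw [h3]
  have h4 : Asc D b ∅ := by
    refine ⟨?_, by simp⟩
    rw [sm_empty]
    exact h1
  have h5 : (∅ : Finset P) ∈ (unv D b 0).powerset.filter (fun S => Asc D b S) := by
    rw [Finset.mem_filter, Finset.mem_powerset]
    exact ⟨Finset.empty_subset _, h4⟩
  have h6 := Finset.single_le_sum (f := fun S : Finset P => 1 * r ^ S.card) (fun S _ => by positivity) h5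
  simpa using h6

omit [Fintype P] in
theorem sm_upd (D : Dg G) (C : Finset P) (i : P) : (D.sm C).upd i .smooth = D.sm (insert i C) := by
  ext j
  by_cases hj : j = i ∨ j = G.op i
  · rw [upd_st _ _ _ _ hj, sm_st_mem]
    rcases hj with rfl | rfl
    · exact Or.inl (Finset.mem_insert_self _ _)
    · right
      rw [G.op_op]
      exact Finset.mem_insert_self _ _
  · rw [not_or] at hj
    have hj2 : G.op j ≠ i := fun h => hj.2 (by rw [← h, G.op_op])
    rw [upd_st_ne _ _ _ _ hj.1 hj.2]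
    by_cases hC : j ∈ C ∨ G.op j ∈ C
    · rw [sm_st_mem _ _ _ hC, sm_st_mem _ _ _ (hC.imp (Finset.mem_insert_of_mem) (Finset.mem_insert_of_mem))]
    · rw [not_or] at hC
      rw [sm_st_not _ _ _ hC.1 hC.2, sm_st_not _ _ _ (by simp [hj.1, hC.1]) (by simp [hj2, hC.2])]

/-- Smoothing. -/
theorem mono_real {nab : Dg G → ℤ[X]} (hn : Cs nab) {D : Dg G} (hD : PS D) {r : ℝ} (hr : 0 ≤ r) (C : Finset P) :
    C ⊆ lows D → r ^ C.card * aeval r (nab (D.sm C)) ≤ aeval r (nab D) := by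
  induction C using Finset.induction_on with
  | empty =>
    intro _
    rw [sm_empty]
    simp
  | insert i C hi ih =>
    intro hC
    have hiL : Low D i := mem_lows.1 (hC (Finset.mem_insert_self i C))
    have hCL := (Finset.subset_insert i C).trans hC
    refine le_trans ?_ (ih hCL)
    have hiC : Low (D.sm C) i := by
      rw [← mem_lows, lows_sm D hCL, Finset.mem_sdiff]
      exact ⟨mem_lows.2 hiL, hi⟩
    have h1 := hn.skein (D.sm C) i hiC.1
    have h2 : (D.sm C).upd i .pos = D.sm C := by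
      have := upd_self (D.sm C) i
      rwa [hiC.2.2] at this
    rw [h2, sm_upd] at h1
    have h3 : aeval r (nab (D.sm C)) = aeval r (nab ((D.sm C).upd i .neg)) + r * aeval r (nab (D.sm (insert i C))) := by
      have h4 : nab (D.sm C) = nab ((D.sm C).upd i .neg) + X * nab (D.sm (insert i C)) := by rw [← h1]; ring
      conv_lhs => rw [h4]
      rw [map_add, map_mul, aeval_X]
    have h5 : 0 ≤ aeval r (nab ((D.sm C).upd i .neg)) := by
      refine Pool.Agent.Helper85.EV4.aeval_nn (Pool.Agent.Helper85.EV4.nn_of hn _ i hiC.1 (upd_st _ _ _ _ (Or.inl rfl)) fun j hj hj' => ?_) hr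
      rw [upd_st_ne _ _ _ _ hj hj']
      exact hD.sm C j
    rw [Finset.card_insert_of_notMem hi, pow_succ, h3, mul_assoc]
    exact mul_le_mul_of_nonneg_left (by linarith) (by positivity)

/-- **(I2)** -/
theorem le_dbl {nab : Dg G → ℤ[X]} (hn : Cs nab) {b : P} {E : Dg G} (hE : PS E) {C : Finset P} (hC : C ∈ stt E b) {r : ℝ} (hr : 0 < r) :
    r ^ (lows E).card * (r + r⁻¹) ^ C.card ≤ dbl nab E r := by
  obtain ⟨hCL, hC1⟩ := mem_stt.1 hC
  have h1 : ∑ A ∈ C.powerset, r ^ (lows E \ A).card * r ^ (C \ A).card ≤ dbl nab E r := by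
    unfold dbl
    refine (Finset.sum_le_sum (f := fun A => r ^ (lows E \ A).card * r ^ (C \ A).card) (g := fun A => r ^ (lows E \ A).card * aeval r (nab (E.sm A)))
      fun A hA => ?_).trans (Finset.sum_le_sum_of_subset_of_nonneg (Finset.powerset_mono.2 hCL) fun A _ _ => mul_nonneg (by positivity) (nn_real hn b (hE.sm A) hr.le))
    rw [Finset.mem_powerset] at hA
    refine mul_le_mul_of_nonneg_left ?_ (by positivity)
    have h2 := mono_real hn (hE.sm A) hr.le (C \ A) (by rw [lows_sm E (hA.trans hCL)]; exact Finset.sdiff_subset_sdiff hCL (Finset.Subset.refl _))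
    rw [sm_sm, Finset.union_sdiff_of_subset hA] at h2
    have h3 := one_le_real hn (hE.sm C) hC1 hr.le
    calc r ^ (C \ A).card = r ^ (C \ A).card * 1 := (mul_one _).symm
      _ ≤ r ^ (C \ A).card * aeval r (nab (E.sm C)) := mul_le_mul_of_nonneg_left h3 (by positivity)
      _ ≤ _ := h2
  refine le_trans (le_of_eq ?_) h1
  have h4 : (r + r⁻¹) ^ C.card = ∑ A ∈ C.powerset, r⁻¹ ^ A.card * r ^ (C \ A).card := by
    rw [← Finset.prod_const, add_comm, Finset.prod_add]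
    refine Finset.sum_congr rfl fun A _ => ?_
    rw [Finset.prod_const, Finset.prod_const]
  rw [h4, Finset.mul_sum]
  refine Finset.sum_congr rfl fun A hA => ?_
  rw [Finset.mem_powerset] at hA
  rw [pow_sdiff hr.ne' (hA.trans hCL)]
  ring

end Pool.Agent.Helper2.C5
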