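import Pool.Agent.Helper60.EV2.Exist

/-!
# A weighted state formula

For letters `x i + σ` at the positive crossings (`σ`: the crossing, `x i` times the smoothing): the sum over the smoothed crossings `C` with one component of the product of the weights
`x i + z` (the lower passage `i` is visited before the upper one) or `x i`.
-/

set_option autoImplicit false

namespace Pool.Agent.Helper2.C5

open Polynomial Classical Pool.Agent.Helper85.Exp Pool.Agent.Helper60.EV2

variable {P : Type} {G : Sh P}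

/-- One component. -/
def One (D : Dg G) (b : P) : Prop := ∀ i, ∃ k : ℕ, D.tr^[k] b = i

/-- `i` is visited before `op i`. -/
def Fv (D : Dg G) (b i : P) : Prop := ∀ k : ℕ, D.tr^[k] b = G.op i → ∃ l < k, D.tr^[l] b = i

/-- The lower passages of the positive crossings. -/
noncomputable def lows [Fintype P] (D : Dg G) : Finset P := Finset.univ.filter fun i => Low D i

theorem mem_lows [Fintype P] {D : Dg G} {i : P} : i ∈ lows D ↔ Low D i := by simp [lows]

theorem unv_zero [Fintype P] (D : Dg G) (b : P) : unv D b 0 = lows D := by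
  ext i
  rw [mem_unv, mem_lows]
  exact ⟨fun h => h.1, fun h => ⟨h, fun l hl => absurd hl (by omega)⟩⟩

theorem sm_sm (D : Dg G) (A S : Finset P) : (D.sm A).sm S = D.sm (A ∪ S) := by
  ext j
  by_cases hS : j ∈ S ∨ G.op j ∈ S
  · rw [sm_st_mem _ S j hS, sm_st_mem _ (A ∪ S) j (hS.imp (Finset.mem_union_right A) (Finset.mem_union_right A))]
  · rw [not_or] at hS
    rw [sm_st_not _ S j hS.1 hS.2]
    by_cases hA : j ∈ A ∨ G.op j ∈ A
    · rw [sm_st_mem _ A j hA, sm_st_mem _ (A ∪ S) j (hA.imp (Finset.mem_union_left S) (Finset.mem_union_left S))]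
    · rw [not_or] at hA
      rw [sm_st_not _ A j hA.1 hA.2, sm_st_not _ (A ∪ S) j (by simp [hA.1, hS.1]) (by simp [hA.2, hS.2])]

theorem lows_sm [Fintype P] (D : Dg G) {A : Finset P} (hA : A ⊆ lows D) : lows (D.sm A) = lows D \ A := by
  ext i
  rw [Finset.mem_sdiff, mem_lows, mem_lows]
  constructor
  · rintro ⟨h1, h2, h3⟩
    have hi : i ∉ A := by
      intro h
      rw [sm_st_mem D A i (Or.inl h)] at h3
      cases h3
    have hi' : G.op i ∉ A := by
      intro h
      rw [sm_st_mem D A i (Or.inr h)] at h3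
      cases h3
    rw [sm_st_not D A i hi hi'] at h3
    exact ⟨⟨h1, h2, h3⟩, hi⟩
  · rintro ⟨⟨h1, h2, h3⟩, hi⟩
    have hi' : G.op i ∉ A := by
      intro h
      have h4 := (mem_lows.1 (hA h)).2.1
      rw [G.lf_op _ h1, h2] at h4
      simp at h4
    exact ⟨h1, h2, by rw [sm_st_not D A i hi hi']; exact h3⟩

theorem pos_or_sm {D : Dg G} (hD : ∀ i, G.op i ≠ i → D.st i = .pos ∨ D.st i = .smooth) (A : Finset P) :
    ∀ i, G.op i ≠ i → (D.sm A).st i = .pos ∨ (D.sm A).st i = .smooth := by
  intro i hi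
  by_cases h : i ∈ A ∨ G.op i ∈ A
  · exact Or.inr (sm_st_mem D A i h)
  · rw [not_or] at h
    rw [sm_st_not D A i h.1 h.2]
    exact hD i hi

/-- **The weighted state formula.** -/
theorem weighted [Fintype P] {R : Type*} [CommRing R] {z c : R} {f : Dg G → R} {b : P} (h : Cw z c b f) (D : Dg G)
    (hD : ∀ i, G.op i ≠ i → D.st i = .pos ∨ D.st i = .smooth) (x : P → R) :
    ∑ A ∈ (lows D).powerset, (∏ i ∈ A, x i) * f (D.sm A) =
      ∑ C ∈ (lows D).powerset.filter (fun C => One (D.sm C) b), c * ∏ i ∈ C, (x i + if Fv (D.sm C) b i then z else 0) := by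
  have e1 : ∀ A ∈ (lows D).powerset, (∏ i ∈ A, x i) * f (D.sm A) =
      ∑ S ∈ (lows D \ A).powerset, if One (D.sm (A ∪ S)) b then
        c * ((∏ i ∈ A, x i) * ∏ i ∈ S, (if Fv (D.sm (A ∪ S)) b i then z else 0)) else 0 := by
    intro A hA
    rw [Finset.mem_powerset] at hA
    rw [expand h (D.sm A) (pos_or_sm hD A), unv_zero, lows_sm D hA, Finset.sum_filter, Finset.mul_sum]
    refine Finset.sum_congr rfl fun S _ => ?_
    have e2 : Asc (D.sm A) b S ↔ One (D.sm (A ∪ S)) b ∧ ∀ i ∈ S, Fv (D.sm (A ∪ S)) b i := by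
      unfold Asc
      rw [sm_sm]
      rfl
    by_cases h1 : One (D.sm (A ∪ S)) b
    · rw [if_pos h1]
      by_cases h2 : ∀ i ∈ S, Fv (D.sm (A ∪ S)) b i
      · rw [if_pos (e2.2 ⟨h1, h2⟩), Finset.prod_congr rfl fun i hi => if_pos (h2 i hi), Finset.prod_const]
        ring
      · rw [if_neg fun h3 => h2 (e2.1 h3).2]
        push Not at h2
        obtain ⟨i, hi, hi2⟩ := h2
        rw [Finset.prod_eq_zero hi (if_neg hi2)]
        ring
    · rw [if_neg fun h3 => h1 (e2.1 h3).1, if_neg h1, mul_zero]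
  rw [Finset.sum_congr rfl e1, Finset.sum_filter]
  have e3 : ∀ C ∈ (lows D).powerset, (if One (D.sm C) b then c * ∏ i ∈ C, (x i + if Fv (D.sm C) b i then z else 0) else 0) =
      ∑ A ∈ C.powerset, if One (D.sm C) b then c * ((∏ i ∈ A, x i) * ∏ i ∈ C \ A, (if Fv (D.sm C) b i then z else 0)) else 0 := by
    intro C _
    by_cases h1 : One (D.sm C) b
    · simp only [if_pos h1]
      rw [Finset.prod_add, Finset.mul_sum]
    · simp only [if_neg h1, Finset.sum_const_zero]
  rw [Finset.sum_congr rfl e3, Finset.sum_sigma', Finset.sum_sigma']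
  refine Finset.sum_bij' (fun q _ => ⟨q.1 ∪ q.2, q.1⟩) (fun q _ => ⟨q.2, q.1 \ q.2⟩) ?_ ?_ ?_ ?_ ?_
  · rintro ⟨A, S⟩ hq
    simp only [Finset.mem_sigma, Finset.mem_powerset] at hq ⊢
    exact ⟨Finset.union_subset hq.1 (hq.2.trans Finset.sdiff_subset), Finset.subset_union_left⟩
  · rintro ⟨C, A⟩ hq
    simp only [Finset.mem_sigma, Finset.mem_powerset] at hq ⊢
    exact ⟨hq.2.trans hq.1, Finset.sdiff_subset_sdiff hq.1 (Finset.Subset.refl _)⟩
  · rintro ⟨A, S⟩ hq
    simp only [Finset.mem_sigma, Finset.mem_powerset] at hq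
    have hd : Disjoint A S := by
      rw [Finset.disjoint_right]
      intro i hi
      exact (Finset.mem_sdiff.1 (hq.2 hi)).2
    simp only [Finset.union_sdiff_cancel_left hd]
  · rintro ⟨C, A⟩ hq
    simp only [Finset.mem_sigma, Finset.mem_powerset] at hq
    simp only [Finset.union_sdiff_of_subset hq.2]
  · rintro ⟨A, S⟩ hq
    simp only [Finset.mem_sigma, Finset.mem_powerset] at hq
    have hd : Disjoint A S := by
      rw [Finset.disjoint_right]
      intro i hi
      exact (Finset.mem_sdiff.1 (hq.2 hi)).2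
    simp only [Finset.union_sdiff_cancel_left hd]

end Pool.Agent.Helper2.C5
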