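import Pool.Agent.Helper60.PD.Full
import Pool.Agent.Helper43.PD.Plane
import Pool.Agent.Helper2.C5.State

/-!
# The mirror image

`∇ (mirror D) (-z) = ∇ D (z)`, from the Dehn determinant.
-/

set_option autoImplicit false

namespace Pool.Agent.Helper2.C5

open Polynomial Classical Pool.Agent.Helper85.Exp Pool.Agent.Helper60.EV2 Pool.Agent.Helper2.PD Pool.Agent.Helper16.PD Pool.Agent.Helper43.Pln

variable {P : Type} {G : Sh P}

/-- Exchange positive and negative. -/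
def flipSt : St → St
  | .pos => .neg
  | .neg => .pos
  | .smooth => .smooth

/-- The mirror image. -/
def mir (D : Dg G) : Dg G := ⟨fun i => flipSt (D.st i), fun i => by rw [D.st_op]⟩

theorem dn_mir {F R : Type} [CommRing R] [DecidableEq F] (A : Fa G F) (s t : R) (D : Dg G) (x : Cr G) (f : F) :
    A.dn s t (mir D) x f = A.dn t s D x f := by
  have h : (mir D).st x.1 = flipSt (D.st x.1) := rfl
  unfold Fa.dn
  rw [h]
  generalize D.st x.1 = st
  cases st <;> rfl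

theorem exists_unit (z : ℂ) : ∃ u : ℂˣ, ((u⁻¹ : ℂˣ) : ℂ) - (u : ℂ) = z := by
  obtain ⟨w, hw⟩ := IsAlgClosed.exists_pow_nat_eq (z ^ 2 + 4) (n := 2) (by norm_num)
  have h1 : (w - z) / 2 * ((w + z) / 2) = 1 := by
    have : (w - z) / 2 * ((w + z) / 2) = (w ^ 2 - z ^ 2) / 4 := by ring
    rw [this, hw]
    ring
  refine ⟨⟨(w - z) / 2, (w + z) / 2, h1, by rw [mul_comm]; exact h1⟩, ?_⟩
  show (w + z) / 2 - (w - z) / 2 = z
  ring

/-- **The mirror image.** -/
theorem mirror [Fintype P] (hG : Plane G) {nab : Dg G → ℤ[X]} (hn : Cs nab) (D : Dg G) (z : ℂ) :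
    aeval (-z) (nab (mir D)) = aeval z (nab D) := by
  have hne := nonempty_of hG
  obtain ⟨b⟩ := hne
  obtain ⟨k, hk⟩ := exists_kappa hG.conn hG.cross hG.genus
  obtain ⟨ε⟩ := Pool.Agent.Helper60.PD.exists_eq hG.conn hG.cross hG.genus b
  let _ : Fintype (Face G) := Fintype.ofFinite _
  obtain ⟨c, -, hc⟩ := Pool.Agent.Helper60.PD.nab_dehn (faceFa G hG.cross) hG.conn k hk b ε
  obtain ⟨u, hu⟩ := exists_unit z
  have h1 := hc nab hn ℂ u D
  have h2 := hc nab hn ℂ u⁻¹ (mir D)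
  rw [inv_inv] at h2
  rw [hu] at h1
  have e : (u : ℂ) - ((u⁻¹ : ℂˣ) : ℂ) = -z := by rw [← hu]; ring
  rw [e] at h2
  rw [h1, h2]
  congr 2
  ext x y
  rw [Matrix.of_apply, Matrix.of_apply, dn_mir]

end Pool.Agent.Helper2.C5
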