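import Pool.Agent.Helper2.C5.PairsX
import Pool.Agent.Helper3.C5.Tail

/-!
# The state model of a diagram with pairs

`J`: pairs of parallel crossings (`Pr G J`), `D1 J`: the first crossing of each pair smoothed, `U`: its lower passages, `O = Out G J`: the crossings outside the pairs.
-/

set_option autoImplicit false

namespace Pool.Agent.Helper2.C5

open Polynomial Classical Pool.Agent.Helper85.Exp Pool.Agent.Helper60.EV2 Pool.Agent.Helper43.Pln Pool.Agent.Helper85.EV4
  Pool.Agent.Helper57.C5 Pool.Agent.Helper3.C5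

variable {P : Type} {G : Sh P}

/-- The first crossing of each pair smoothed. -/
noncomputable def D1 (G : Sh P) (J : Finset P) : Dg G := (allPos G).sm J

theorem ps_allPos : PS (allPos G) := fun _ => Or.inl rfl

theorem ps_D1 (J : Finset P) : PS (D1 G J) := ps_allPos.sm J

/-- The smoothed crossings whose lower passage is visited first. -/
noncomputable def av (E : Dg G) (b : P) (C : Finset P) : Finset P := C.filter fun i => Fv (E.sm C) b i

theorem card_av (E : Dg G) (b : P) (C : Finset P) : (av E b C).card = jn E b C := rfl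

theorem mem_av {E : Dg G} {b : P} {C : Finset P} {i : P} : i ∈ av E b C ↔ i ∈ C ∧ Fv (E.sm C) b i := by
  unfold av
  rw [Finset.mem_filter]

variable [Fintype P]

/-- The letters. -/
noncomputable def UU (G : Sh P) (J : Finset P) : Finset P := lows (D1 G J)

theorem mem_UU (ho : ∀ i, G.op i ≠ i) {J : Finset P} (hJ : Pr G J) {i : P} : i ∈ UU G J ↔ G.lf i = true ∧ i ∉ J := by
  unfold UU D1
  rw [lows_sm]
  · rw [Finset.mem_sdiff, mem_lows]
    exact ⟨fun h => ⟨h.1.2.1, h.2⟩, fun h => ⟨⟨ho i, h.1, rfl⟩, h.2⟩⟩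
  · intro p hp
    exact mem_lows.2 ⟨ho p, hJ.lf p hp, rfl⟩

/-- The letters of the pairs. -/
noncomputable def JJ (G : Sh P) (J : Finset P) : Finset P := J.image (seifert G)

theorem JJ_card (J : Finset P) : (JJ G J).card = J.card := Finset.card_image_of_injective _ (seifert G).injective

theorem mem_JJ {J : Finset P} {i : P} : i ∈ JJ G J ↔ (seifert G).symm i ∈ J := by
  unfold JJ
  rw [Finset.mem_image]
  constructor
  · rintro ⟨q, hq, rfl⟩
    rwa [Equiv.symm_apply_apply]
  · intro h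
    exact ⟨_, h, Equiv.apply_symm_apply _ _⟩

theorem lf_JJ {J : Finset P} (hJ : Pr G J) {p : P} (hp : p ∈ J) : G.lf (seifert G p) = true := by
  rw [lf_next (hJ.big p hp)]
  exact hJ.lf p hp

theorem UU_eq (ho : ∀ i, G.op i ≠ i) {J : Finset P} (hJ : Pr G J) : UU G J = JJ G J ∪ Out G J := by
  ext i
  rw [mem_UU ho hJ, Finset.mem_union, mem_JJ, mem_Out]
  constructor
  · rintro ⟨h1, h2⟩
    by_cases h3 : (seifert G).symm i ∈ J
    · exact Or.inl h3
    · exact Or.inr ⟨h1, h2, h3⟩
  · rintro (h | ⟨h1, h2, -⟩)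
    · have h1 := lf_JJ hJ h
      have h2 := hJ.disj _ h
      rw [Equiv.apply_symm_apply] at h1 h2
      exact ⟨h1, h2⟩
    · exact ⟨h1, h2⟩

theorem disj_JO {J : Finset P} : Disjoint (JJ G J) (Out G J) := by
  rw [Finset.disjoint_left]
  intro i h1 h2
  exact (mem_Out.1 h2).2.2 (mem_JJ.1 h1)

theorem UU_sdiff (ho : ∀ i, G.op i ≠ i) {J : Finset P} (hJ : Pr G J) : UU G J \ Out G J = JJ G J := by
  rw [UU_eq ho hJ, Finset.union_sdiff_cancel_right disj_JO]

/-- The expansion at the pairs, over the letters. -/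
theorem exp_JJ {R : Type*} [CommRing R] {z c : R} {f : Dg G → R} (hf : ∀ b, Cw z c b f) (ho : ∀ i, G.op i ≠ i) {J : Finset P} (hJ : Pr G J) :
    f (allPos G) = ∑ A ∈ (JJ G J).powerset, z ^ (JJ G J \ A).card * f ((D1 G J).sm A) := by
  rw [pairs_exp hf ho J (allPos G) ps_allPos (fun p hp => big_of ho (hJ.big p hp) (hJ.ne p hp)) hJ.lf (fun p hp => lf_JJ hJ hp) hJ.disj
    (fun p _ => ⟨rfl, rfl⟩)]
  refine Finset.sum_bij' (fun A _ => A.image (seifert G)) (fun B _ => B.image (seifert G).symm) ?_ ?_ ?_ ?_ ?_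
  · intro A hA
    rw [Finset.mem_powerset] at hA ⊢
    exact Finset.image_subset_image hA
  · intro B hB
    rw [Finset.mem_powerset] at hB ⊢
    intro x hx
    obtain ⟨y, hy, rfl⟩ := Finset.mem_image.1 hx
    exact mem_JJ.1 (hB hy)
  · intro A _
    rw [Finset.image_image, Equiv.symm_comp_self, Finset.image_id]
  · intro B _
    rw [Finset.image_image, Equiv.self_comp_symm, Finset.image_id]
  · intro A hA
    rw [Finset.mem_powerset] at hA
    unfold JJ D1
    rw [← Finset.image_sdiff _ _ (seifert G).injective, Finset.card_image_of_injective _ (seifert G).injective, sm_sm]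

/-- **(B)** over a field. -/
theorem state_D {K : Type} [Field K] {nab : Dg G → ℤ[X]} (hn : Cs nab) (ho : ∀ i, G.op i ≠ i) {J : Finset P} (hJ : Pr G J) (b : P) {z : K}
    (hz : z ≠ 0) : aeval z (nab (allPos G)) =
      ∑ C ∈ stD (stt (D1 G J) b) (Out G J) (av (D1 G J) b), wD (UU G J) (Out G J) (av (D1 G J) b) z C := by
  have hf : ∀ b', Cw z 1 b' (fun D => aeval z (nab D)) := by
    intro b'
    have h1 := (hn.cw b').map (aeval z : ℤ[X] →ₐ[ℤ] K).toRingHom
    have e1 : (aeval z : ℤ[X] →ₐ[ℤ] K).toRingHom X = z := aeval_X z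
    have e2 : (aeval z : ℤ[X] →ₐ[ℤ] K).toRingHom 1 = 1 := map_one _
    rw [e1, e2] at h1
    exact h1
  obtain ⟨x, hx⟩ : ∃ x : P → K, x = fun i => if i ∈ JJ G J then z⁻¹ else 0 := ⟨_, rfl⟩
  have h2 := weighted (hf b) (D1 G J) (fun i _ => ps_D1 J i) x
  have e1 : aeval z (nab (allPos G)) = z ^ J.card * ∑ A ∈ (lows (D1 G J)).powerset, (∏ i ∈ A, x i) * aeval z (nab ((D1 G J).sm A)) := by
    rw [exp_JJ (f := fun D => aeval z (nab D)) hf ho hJ, Finset.mul_sum]
    have hsub : (JJ G J).powerset ⊆ (lows (D1 G J)).powerset := by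
      apply Finset.powerset_mono.2
      show JJ G J ⊆ UU G J
      rw [UU_eq ho hJ]
      exact Finset.subset_union_left
    rw [← Finset.sum_subset hsub]
    · refine Finset.sum_congr rfl fun A hA => ?_
      rw [Finset.mem_powerset] at hA
      have h3 : ∏ i ∈ A, x i = z⁻¹ ^ A.card := by
        rw [Finset.prod_congr rfl fun i hi => ?_, Finset.prod_const]
        rw [hx]
        exact if_pos (hA hi)
      rw [h3, pow_sdiff hz hA, JJ_card]
      ring
    · intro A hA hA'
      rw [Finset.mem_powerset] at hA'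
      obtain ⟨i, hi, hi2⟩ := Finset.not_subset.1 hA'
      have h3 : ∏ i ∈ A, x i = 0 := Finset.prod_eq_zero hi (by rw [hx]; exact if_neg hi2)
      rw [h3]
      ring
  rw [e1]
  change ∑ A ∈ (lows (D1 G J)).powerset, (∏ i ∈ A, x i) * aeval z (nab ((D1 G J).sm A)) = _ at h2
  rw [h2, Finset.mul_sum]
  change ∑ C ∈ stt (D1 G J) b, _ = _
  unfold stD
  rw [Finset.sum_filter]
  refine Finset.sum_congr rfl fun C hC => ?_
  have hCU : C ⊆ UU G J := (mem_stt.1 hC).1
  have hsplit : C = (C ∩ Out G J) ∪ (C \ Out G J) := by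
    ext j
    simp only [Finset.mem_union, Finset.mem_inter, Finset.mem_sdiff]
    tauto
  have hdis : Disjoint (C ∩ Out G J) (C \ Out G J) := by
    rw [Finset.disjoint_left]
    intro j h3 h4
    exact (Finset.mem_sdiff.1 h4).2 (Finset.mem_inter.1 h3).2
  have hprod : ∏ i ∈ C, (x i + if Fv ((D1 G J).sm C) b i then z else 0) =
      (∏ i ∈ C ∩ Out G J, (x i + if Fv ((D1 G J).sm C) b i then z else 0)) *
        ∏ i ∈ C \ Out G J, (x i + if Fv ((D1 G J).sm C) b i then z else 0) := by
    rw [← Finset.prod_union hdis, ← hsplit]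
  have hx0 : ∀ i ∈ C ∩ Out G J, x i = 0 := by
    intro i hi
    rw [hx]
    exact if_neg fun h => (mem_Out.1 (Finset.mem_inter.1 hi).2).2.2 (mem_JJ.1 h)
  have hx1 : ∀ i ∈ C \ Out G J, x i = z⁻¹ := by
    intro i hi
    rw [hx]
    refine if_pos ?_
    have h3 := hCU (Finset.mem_sdiff.1 hi).1
    rw [UU_eq ho hJ, Finset.mem_union] at h3
    exact h3.resolve_right (Finset.mem_sdiff.1 hi).2
  by_cases hcon : C ∩ Out G J ⊆ av (D1 G J) b C
  · rw [if_pos hcon, hprod]
    have p1 : ∏ i ∈ C ∩ Out G J, (x i + if Fv ((D1 G J).sm C) b i then z else 0) = z ^ (C ∩ Out G J).card := by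
      rw [Finset.prod_congr rfl fun i hi => ?_, Finset.prod_const]
      rw [hx0 i hi, if_pos (mem_av.1 (hcon hi)).2, zero_add]
    have p2 : ∏ i ∈ C \ Out G J, (x i + if Fv ((D1 G J).sm C) b i then z else 0) =
        z⁻¹ ^ (C \ Out G J).card * (1 + z ^ 2) ^ (av (D1 G J) b C \ Out G J).card := by
      have p3 : ∀ i ∈ C \ Out G J, (x i + if Fv ((D1 G J).sm C) b i then z else 0) = z⁻¹ * (if Fv ((D1 G J).sm C) b i then 1 + z ^ 2 else 1) := by
        intro i hi
        rw [hx1 i hi]
        split_ifs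
        · field_simp
        · rw [add_zero, mul_one]
      rw [Finset.prod_congr rfl p3, Finset.prod_mul_distrib, Finset.prod_const, Finset.prod_ite, Finset.prod_const, Finset.prod_const, one_pow, mul_one]
      congr 3
      ext j
      simp only [Finset.mem_filter, Finset.mem_sdiff, mem_av]
      tauto
    rw [p1, p2]
    unfold wD
    rw [UU_sdiff ho hJ, pow_add]
    have p4 : z ^ (JJ G J \ C).card = z ^ J.card * z⁻¹ ^ (C \ Out G J).card := by
      have e2 : JJ G J \ C = JJ G J \ (C \ Out G J) := by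
        ext j
        simp only [Finset.mem_sdiff, not_and, not_not]
        constructor
        · rintro ⟨h3, h4⟩
          exact ⟨h3, fun h5 => absurd h5 h4⟩
        · rintro ⟨h3, h4⟩
          refine ⟨h3, fun h5 => ?_⟩
          exact Finset.disjoint_left.1 disj_JO h3 (h4 h5)
      have e3 : C \ Out G J ⊆ JJ G J := by
        rw [← UU_sdiff ho hJ]
        exact Finset.sdiff_subset_sdiff hCU (Finset.Subset.refl _)
      rw [e2, pow_sdiff hz e3, JJ_card]
    rw [p4]
    ring
  · rw [if_neg hcon, hprod]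
    obtain ⟨i, hi, hi2⟩ := Finset.not_subset.1 hcon
    have hnf : ¬ Fv ((D1 G J).sm C) b i := fun h => hi2 (mem_av.2 ⟨(Finset.mem_inter.1 hi).1, h⟩)
    have p1 : ∏ i ∈ C ∩ Out G J, (x i + if Fv ((D1 G J).sm C) b i then z else 0) = 0 := by
      refine Finset.prod_eq_zero hi ?_
      rw [hx0 i hi, if_neg hnf, zero_add]
    rw [p1]
    ring

omit [Fintype P] in
theorem aeval_hom {K : Type} [Field K] (φ : ℤ[X] →+* K) (p : ℤ[X]) : aeval (φ X) p = φ p := by
  have h : (aeval (φ X) : ℤ[X] →ₐ[ℤ] K).toRingHom = φ := by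
    apply Polynomial.ringHom_ext
    · intro a
      simp
    · exact aeval_X _
  exact congrArg (fun ψ : ℤ[X] →+* K => ψ p) h

/-- **(B)** -/
theorem state_X {nab : Dg G → ℤ[X]} (hn : Cs nab) (ho : ∀ i, G.op i ≠ i) {J : Finset P} (hJ : Pr G J) (b : P) : nab (allPos G) =
      ∑ C ∈ stD (stt (D1 G J) b) (Out G J) (av (D1 G J) b), wD (UU G J) (Out G J) (av (D1 G J) b) (X : ℤ[X]) C := by
  have h1 : algebraMap ℤ[X] (FractionRing ℤ[X]) X ≠ 0 := by
    intro h
    exact X_ne_zero (IsFractionRing.injective ℤ[X] (FractionRing ℤ[X]) (by rw [h, map_zero]))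
  have h2 := state_D hn ho hJ b h1
  apply IsFractionRing.injective ℤ[X] (FractionRing ℤ[X])
  rw [aeval_hom] at h2
  rw [h2, map_sum]
  refine Finset.sum_congr rfl fun C _ => ?_
  unfold wD
  rw [map_mul, map_pow, map_pow, map_add, map_one, map_pow]

/-- **(B)** for the values. -/
theorem state_aeval {K : Type} [Field K] {nab : Dg G → ℤ[X]} (hn : Cs nab) (ho : ∀ i, G.op i ≠ i) {J : Finset P} (hJ : Pr G J) (b : P) (z : K) :
    aeval z (nab (allPos G)) = ∑ C ∈ stD (stt (D1 G J) b) (Out G J) (av (D1 G J) b), wD (UU G J) (Out G J) (av (D1 G J) b) z C := by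
  conv_lhs => rw [state_X hn ho hJ b]
  rw [map_sum]
  refine Finset.sum_congr rfl fun C _ => ?_
  unfold wD
  rw [map_mul, map_pow, map_pow, map_add, map_one, map_pow, aeval_X]

end Pool.Agent.Helper2.C5
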