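import Pool.Agent.Helper2.C5.Model

/-!
# The state model of a diagram with pairs: symmetry, comparison with the doubled diagram, the largest state
-/

set_option autoImplicit false

namespace Pool.Agent.Helper2.C5

open Polynomial Classical Pool.Agent.Helper85.Exp Pool.Agent.Helper60.EV2 Pool.Agent.Helper43.Pln Pool.Agent.Helper85.EV4
  Pool.Agent.Helper57.C5 Pool.Agent.Helper3.C5

theorem counts {ι : Type} (S : Finset ι) (c j j' : ι → ℕ) (h : ∀ s t : ℝ, ∑ x ∈ S, s ^ c x * t ^ j x = ∑ x ∈ S, s ^ c x * t ^ j' x) (m i : ℕ) :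
    (S.filter fun x => c x = m ∧ j x = i).card = (S.filter fun x => c x = m ∧ j' x = i).card := by
  have h1 : ∀ t : ℝ, ∑ x ∈ S, (if c x = m then t ^ j x else 0) = ∑ x ∈ S, (if c x = m then t ^ j' x else 0) := by
    intro t
    have h2 : (∑ x ∈ S, Polynomial.C (t ^ j x) * X ^ c x : ℝ[X]) = ∑ x ∈ S, Polynomial.C (t ^ j' x) * X ^ c x := by
      apply Polynomial.funext
      intro s
      rw [eval_finset_sum, eval_finset_sum]
      simp only [eval_mul, eval_C, eval_pow, eval_X]
      have h3 := h s t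
      simp only [mul_comm (s ^ _)] at h3
      exact h3
    have h3 := congrArg (fun p : ℝ[X] => p.coeff m) h2
    simp only [finsetSum_coeff, coeff_C_mul, coeff_X_pow, mul_ite, mul_one, mul_zero] at h3
    simp only [eq_comm (a := m)] at h3
    exact h3
  have h2 : (∑ x ∈ S.filter (fun x => c x = m), X ^ j x : ℝ[X]) = ∑ x ∈ S.filter (fun x => c x = m), X ^ j' x := by
    apply Polynomial.funext
    intro t
    rw [eval_finset_sum, eval_finset_sum]
    simp only [eval_pow, eval_X]
    rw [Finset.sum_filter, Finset.sum_filter]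
    exact h1 t
  have h3 := congrArg (fun p : ℝ[X] => p.coeff i) h2
  simp only [finsetSum_coeff, coeff_X_pow] at h3
  rw [Finset.sum_boole, Finset.sum_boole, Finset.filter_filter, Finset.filter_filter] at h3
  simp only [eq_comm (a := i)] at h3
  exact_mod_cast h3

variable {P : Type} {G : Sh P} [Fintype P]

/-- **(A)** -/
theorem model (hG : Plane G) {nab : Dg G → ℤ[X]} (hn : Cs nab) (b : P) {J : Finset P} (hJ : Pr G J) :
    Pool.Agent.Helper3.C5.Model (UU G J) (Out G J) (stt (D1 G J) b) (av (D1 G J) b) where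
  hO := by
    rw [UU_eq hG.cross hJ]
    exact Finset.subset_union_right
  sub C hC := (mem_stt.1 hC).1
  asub C _ := Finset.filter_subset _ _
  sym m i hi := by
    have h1 := counts (stt (D1 G J) b) (fun C => C.card) (fun C => jn (D1 G J) b C) (fun C => C.card - jn (D1 G J) b C) (fun s t => by
      have h2 := dbl_symm hG hn b (ps_D1 J) one_ne_zero s t
      simpa only [one_pow, one_mul] using h2) m i
    have e1 : (stt (D1 G J) b).filter (fun C => C.card = m ∧ C.card - jn (D1 G J) b C = i) =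
        (stt (D1 G J) b).filter (fun C => C.card = m ∧ jn (D1 G J) b C = m - i) := by
      refine Finset.filter_congr fun C _ => ?_
      have := jn_le (D1 G J) b C
      omega
    rw [e1] at h1
    exact h1

/-- The doubled diagram against the diagram, letter by letter. -/
theorem dom_aux {nab : Dg G → ℤ[X]} (hn : Cs nab) (b : P) (E : Dg G) (hE : PS E) {r : ℝ} (hr : 0 < r) (J' : Finset P) (S : Finset P) :
    J' ∪ S ⊆ lows E → Disjoint J' S → ∑ A ∈ (J' ∪ S).powerset, r ^ ((J' ∪ S) \ A).card * aeval r (nab (E.sm A)) ≤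
      (r + 1 / r) ^ S.card * ∑ A ∈ J'.powerset, r ^ (J' \ A).card * aeval r (nab (E.sm A)) := by
  induction S using Finset.induction_on with
  | empty =>
    intro _ _
    rw [Finset.union_empty, Finset.card_empty, pow_zero, one_mul]
  | insert o S ho ih =>
    intro hU hd
    have hoJ : o ∉ J' := fun h => Finset.disjoint_left.1 hd h (Finset.mem_insert_self _ _)
    have hoU : o ∉ J' ∪ S := by
      rw [Finset.mem_union, not_or]
      exact ⟨hoJ, ho⟩
    have e1 : J' ∪ insert o S = insert o (J' ∪ S) := Finset.union_insert o J' S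
    have hU' : J' ∪ S ⊆ lows E := (Finset.union_subset_union_right (Finset.subset_insert o S)).trans hU
    have hd' : Disjoint J' S := Finset.disjoint_of_subset_right (Finset.subset_insert o S) hd
    rw [e1, Finset.sum_powerset_insert hoU, ← Finset.sum_add_distrib, Finset.card_insert_of_notMem ho]
    have h1 : ∀ A ∈ (J' ∪ S).powerset, r ^ (insert o (J' ∪ S) \ A).card * aeval r (nab (E.sm A)) +
        r ^ (insert o (J' ∪ S) \ insert o A).card * aeval r (nab (E.sm (insert o A))) ≤
          (r + 1 / r) * (r ^ ((J' ∪ S) \ A).card * aeval r (nab (E.sm A))) := by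
      intro A hA
      rw [Finset.mem_powerset] at hA
      have hoA : o ∉ A := fun h => hoU (hA h)
      have c1 : (insert o (J' ∪ S) \ A).card = ((J' ∪ S) \ A).card + 1 := by
        rw [Finset.insert_sdiff_of_notMem _ hoA, Finset.card_insert_of_notMem]
        exact fun h => hoU (Finset.mem_sdiff.1 h).1
      have c2 : insert o (J' ∪ S) \ insert o A = (J' ∪ S) \ A := by
        ext j
        simp only [Finset.mem_sdiff, Finset.mem_insert, not_or]
        constructor
        · rintro ⟨rfl | h1, h2, h3⟩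
          · exact absurd rfl h2
          · exact ⟨h1, h3⟩
        · rintro ⟨h1, h3⟩
          exact ⟨Or.inr h1, fun h => hoU (h ▸ h1), h3⟩
      have hL : o ∈ lows (E.sm A) := by
        rw [lows_sm E (hA.trans hU'), Finset.mem_sdiff]
        exact ⟨hU (by rw [e1]; exact Finset.mem_insert_self _ _), hoA⟩
      have h2 := mono_real hn (hE.sm A) hr.le {o} (Finset.singleton_subset_iff.2 hL)
      have c3 : A ∪ {o} = insert o A := by rw [Finset.union_comm]; rfl
      rw [sm_sm, c3, Finset.card_singleton, pow_one] at h2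
      have h3 : aeval r (nab (E.sm (insert o A))) ≤ 1 / r * aeval r (nab (E.sm A)) := by
        rw [div_mul_eq_mul_div, one_mul, le_div_iff₀ hr, mul_comm]
        exact h2
      rw [c1, c2, pow_succ]
      have h4 : (0 : ℝ) ≤ r ^ ((J' ∪ S) \ A).card := by positivity
      nlinarith [mul_le_mul_of_nonneg_left h3 h4]
    calc _ ≤ ∑ A ∈ (J' ∪ S).powerset, (r + 1 / r) * (r ^ ((J' ∪ S) \ A).card * aeval r (nab (E.sm A))) := Finset.sum_le_sum h1
      _ = (r + 1 / r) * ∑ A ∈ (J' ∪ S).powerset, r ^ ((J' ∪ S) \ A).card * aeval r (nab (E.sm A)) := by rw [Finset.mul_sum]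
      _ ≤ (r + 1 / r) * ((r + 1 / r) ^ S.card * ∑ A ∈ J'.powerset, r ^ (J' \ A).card * aeval r (nab (E.sm A))) :=
          mul_le_mul_of_nonneg_left (ih hU' hd') (by positivity)
      _ = _ := by rw [pow_succ]; ring

/-- **(C)** -/
theorem dom (ho : ∀ i, G.op i ≠ i) {nab : Dg G → ℤ[X]} (hn : Cs nab) (b : P) {J : Finset P} (hJ : Pr G J) {r : ℝ} (hr : 0 < r) :
    ∑ C ∈ stt (D1 G J) b, wO (UU G J) (av (D1 G J) b) r C ≤
      (r + 1 / r) ^ (Out G J).card * ∑ C ∈ stD (stt (D1 G J) b) (Out G J) (av (D1 G J) b), wD (UU G J) (Out G J) (av (D1 G J) b) r C := by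
  rw [← state_aeval hn ho hJ b r]
  have hf : ∀ b', Cw r 1 b' (fun D => aeval r (nab D)) := by
    intro b'
    have h1 := (hn.cw b').map (aeval r : ℤ[X] →ₐ[ℤ] ℝ).toRingHom
    have e1 : (aeval r : ℤ[X] →ₐ[ℤ] ℝ).toRingHom X = r := aeval_X r
    have e2 : (aeval r : ℤ[X] →ₐ[ℤ] ℝ).toRingHom 1 = 1 := map_one _
    rw [e1, e2] at h1
    exact h1
  have e1 := exp_JJ (f := fun D => aeval r (nab D)) hf ho hJ
  rw [e1]
  have e2 := dbl_state hn b (ps_D1 J) hr.ne'
  have e3 : ∑ C ∈ stt (D1 G J) b, wO (UU G J) (av (D1 G J) b) r C = dbl nab (D1 G J) r := by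
    rw [e2]
    rfl
  rw [e3]
  unfold dbl
  have e4 : lows (D1 G J) = JJ G J ∪ Out G J := UU_eq ho hJ
  rw [e4]
  exact dom_aux hn b (D1 G J) (ps_D1 J) hr (JJ G J) (Out G J) (by rw [e4]) disj_JO

/-- There are maximal states all of whose smoothed crossings are first visited below. -/
theorem exists_full {nab : Dg G → ℤ[X]} (hn : Cs nab) (b : P) {E : Dg G} (hE : PS E) {C' : Finset P} (hC' : C' ∈ stt E b) :
    ∃ C ∈ stt E b, av E b C = C ∧ C'.card ≤ C.card := by
  by_contra hcon
  push Not at hcon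
  obtain ⟨N, hN⟩ : ∃ N : ℕ, N = ((stt E b).filter fun C => av E b C = C).card := ⟨_, rfl⟩
  have h1 : ∀ r : ℝ, 1 ≤ r → r ^ C'.card ≤ N * (r ^ C'.card / r) := by
    intro r hr
    have hr0 : 0 < r := by linarith
    have h2 := mono_real hn hE hr0.le C' (mem_stt.1 hC').1
    have h3 := one_le_real hn (hE.sm C') (mem_stt.1 hC').2 hr0.le
    have h4 : r ^ C'.card ≤ aeval r (nab E) := by
      refine le_trans ?_ h2
      calc r ^ C'.card = r ^ C'.card * 1 := (mul_one _).symm
        _ ≤ _ := mul_le_mul_of_nonneg_left h3 (by positivity)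
    refine h4.trans ?_
    have h := (hn.cw b).map (aeval r : ℤ[X] →ₐ[ℤ] ℝ).toRingHom
    have e1 : (aeval r : ℤ[X] →ₐ[ℤ] ℝ).toRingHom X = r := aeval_X r
    have e2 : (aeval r : ℤ[X] →ₐ[ℤ] ℝ).toRingHom 1 = 1 := map_one _
    have h5 := expand h E (fun i _ => hE i)
    rw [e1, e2, unv_zero] at h5
    have h6 : aeval r (nab E) = ∑ S ∈ (lows E).powerset.filter (fun S => Asc E b S), 1 * r ^ S.card := h5
    have h7 : (lows E).powerset.filter (fun S => Asc E b S) = (stt E b).filter fun C => av E b C = C := by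
      ext S
      rw [Finset.mem_filter, Finset.mem_filter, Finset.mem_powerset, mem_stt]
      have e3 : Asc E b S ↔ One (E.sm S) b ∧ ∀ i ∈ S, Fv (E.sm S) b i := Iff.rfl
      rw [e3]
      constructor
      · rintro ⟨a1, a2, a3⟩
        exact ⟨⟨a1, a2⟩, Finset.filter_true_of_mem a3⟩
      · rintro ⟨⟨a1, a2⟩, a3⟩
        refine ⟨a1, a2, fun i hi => ?_⟩
        rw [← a3] at hi
        exact (mem_av.1 hi).2
    rw [h6, h7, hN]
    calc ∑ S ∈ (stt E b).filter (fun C => av E b C = C), 1 * r ^ S.card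
        ≤ ∑ S ∈ (stt E b).filter (fun C => av E b C = C), r ^ C'.card / r := by
          refine Finset.sum_le_sum fun S hS => ?_
          obtain ⟨hS1, hS2⟩ := Finset.mem_filter.1 hS
          have h8 := hcon S hS1 hS2
          rw [one_mul, le_div_iff₀ hr0, ← pow_succ]
          exact pow_le_pow_right₀ hr h8
      _ = _ := by rw [Finset.sum_const, nsmul_eq_mul]
  have h2 := h1 ((N : ℝ) + 1) (by have : (0 : ℝ) ≤ N := Nat.cast_nonneg N; linarith)
  have hN0 : (0 : ℝ) ≤ N := Nat.cast_nonneg N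
  have h3 : (0 : ℝ) < ((N : ℝ) + 1) ^ C'.card := by positivity
  rw [mul_div_assoc', le_div_iff₀ (by linarith)] at h2
  nlinarith

/-- **(D)** -/
theorem exists_top {nab : Dg G → ℤ[X]} (hn : Cs nab) (ho : ∀ i, G.op i ≠ i) (b : P) {J : Finset P} (hJ : Pr G J) (h0 : nab (allPos G) ≠ 0) :
    ∃ C ∈ stt (D1 G J) b, av (D1 G J) b C = C ∧
      (nab (allPos G)).natDegree ≤ (nab (allPos G)).natTrailingDegree + 2 * C.card := by
  have hX := state_X hn ho hJ b
  have hu : ∀ C ∈ stt (D1 G J) b, ((UU G J \ Out G J) \ C).card + (C \ Out G J).card = J.card := by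
    intro C hC
    have hCU : C ⊆ UU G J := (mem_stt.1 hC).1
    have e3 : C \ Out G J ⊆ JJ G J := by
      rw [← UU_sdiff ho hJ]
      exact Finset.sdiff_subset_sdiff hCU (Finset.Subset.refl _)
    have e2 : JJ G J \ C = JJ G J \ (C \ Out G J) := by
      ext j
      simp only [Finset.mem_sdiff, not_and, not_not]
      constructor
      · rintro ⟨h3, h4⟩
        exact ⟨h3, fun h5 => absurd h5 h4⟩
      · rintro ⟨h3, h4⟩
        refine ⟨h3, fun h5 => ?_⟩
        exact Finset.disjoint_left.1 disj_JO h3 (h4 h5)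
    rw [UU_sdiff ho hJ, e2, Finset.card_sdiff_of_subset e3, JJ_card]
    have := Finset.card_le_card e3
    rw [JJ_card] at this
    omega
  have hc : ∀ C : Finset P, (C ∩ Out G J).card + (C \ Out G J).card = C.card := fun C => Finset.card_inter_add_card_sdiff C (Out G J)
  have hj : ∀ C : Finset P, (av (D1 G J) b C \ Out G J).card ≤ (C \ Out G J).card := fun C =>
    Finset.card_le_card (Finset.sdiff_subset_sdiff (Finset.filter_subset _ _) (Finset.Subset.refl _))
  have key : ∀ k, (nab (allPos G)).coeff k ≠ 0 → ∃ C ∈ stt (D1 G J) b, k ≤ J.card + C.card ∧ J.card ≤ k + C.card := by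
    intro k hk
    rw [hX, finsetSum_coeff] at hk
    obtain ⟨C, hC, hC2⟩ := Finset.exists_ne_zero_of_sum_ne_zero hk
    have hC1 : C ∈ stt (D1 G J) b := (Finset.mem_filter.1 hC).1
    have h1 := hu C hC1
    have h2 := hc C
    have h3 := hj C
    unfold wD at hC2
    have h4 : (C ∩ Out G J).card + ((UU G J \ Out G J) \ C).card ≤ k := by
      by_contra h5
      push Not at h5
      exact hC2 (by rw [coeff_X_pow_mul', if_neg (not_le.2 h5)])
    have h5 : k ≤ (C ∩ Out G J).card + ((UU G J \ Out G J) \ C).card + 2 * (av (D1 G J) b C \ Out G J).card := by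
      have h6 := le_natDegree_of_ne_zero hC2
      refine h6.trans ?_
      refine (natDegree_mul_le).trans ?_
      rw [natDegree_X_pow]
      refine Nat.add_le_add_left ?_ _
      refine natDegree_pow_le.trans ?_
      have h7 : (1 + X ^ 2 : ℤ[X]).natDegree ≤ 2 := by
        refine (natDegree_add_le _ _).trans ?_
        rw [natDegree_one, natDegree_X_pow]
        simp
      calc _ ≤ (av (D1 G J) b C \ Out G J).card * 2 := Nat.mul_le_mul_left _ h7
        _ = _ := mul_comm _ _
    refine ⟨C, hC1, ?_, ?_⟩ <;> omega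
  have hne : (stt (D1 G J) b).Nonempty := by
    obtain ⟨C, hC, -⟩ := key _ (by rw [coeff_natDegree]; exact leadingCoeff_ne_zero.2 h0)
    exact ⟨C, hC⟩
  obtain ⟨C1, hC1, hmax⟩ := Finset.exists_max_image (stt (D1 G J) b) (fun C => C.card) hne
  obtain ⟨C, hC, hC2, hC3⟩ := exists_full hn b (ps_D1 J) hC1
  refine ⟨C, hC, hC2, ?_⟩
  obtain ⟨Ca, hCa, ha1, -⟩ := key _ (by rw [coeff_natDegree]; exact leadingCoeff_ne_zero.2 h0)
  obtain ⟨Cb, hCb, -, hb2⟩ := key (nab (allPos G)).natTrailingDegree (by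
    have := trailingCoeff_nonzero_iff_nonzero.2 h0
    exact this)
  have h1 := hmax Ca hCa
  have h2 := hmax Cb hCb
  omega

end Pool.Agent.Helper2.C5
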