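import Pool.Agent.Helper2.C5.DblB
import Pool.Agent.Helper57.C5.Pairs

/-!
# Pairs of parallel crossings: the expansion `σ² = 1 + z σ` at all pairs
-/

set_option autoImplicit false

namespace Pool.Agent.Helper2.C5

open Polynomial Classical Pool.Agent.Helper85.Exp Pool.Agent.Helper60.EV2 Pool.Agent.Helper43.Pln Pool.Agent.Helper85.EV4
  Pool.Agent.Helper57.C5

variable {P : Type} {G : Sh P}

theorem big_of (ho : ∀ i, G.op i ≠ i) {p : P} (h : Pool.Agent.Helper2.V8B.Bigon G p) (hne : seifert G p ≠ p) : Big G p where
  opp := ho p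
  nx := h.1.symm
  side := by
    intro e
    have h1 := h.2
    rw [G.lf_op _ (ho _), e] at h1
    cases h2 : G.lf p <;> rw [h2] at h1 <;> simp at h1
  ne := by
    intro e
    apply hne
    show G.op (G.nxt p) = p
    rw [e, G.op_op]

theorem sm_two (D : Dg G) {p : P} (h : Big G p) (t : St) : sm2 (D.upd p t) p = D.sm {p, seifert G p} := by
  have e : seifert G p = G.op (G.nxt p) := rfl
  ext j
  rw [sm2_st]
  by_cases hj : j = p ∨ j = G.op p ∨ j = G.nxt p ∨ j = G.op (G.nxt p)
  · rw [if_pos hj, sm_st_mem]
    rw [e]
    simp only [Finset.mem_insert, Finset.mem_singleton]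
    rcases hj with rfl | rfl | rfl | rfl
    · exact Or.inl (Or.inl rfl)
    · right
      rw [G.op_op]
      exact Or.inl rfl
    · right
      exact Or.inr rfl
    · left
      exact Or.inr rfl
  · rw [if_neg hj]
    push Not at hj
    obtain ⟨h1, h2, h3, h4⟩ := hj
    have h5 : G.op j ≠ p := fun h => h2 (by rw [← h, G.op_op])
    have h6 : G.op j ≠ G.op (G.nxt p) := fun h => h3 (op_inj G h)
    rw [upd_st_ne _ _ _ _ h1 h2, sm_st_not]
    · rw [e]
      simp [h1, h4]
    · rw [e]
      simp [h5, h6]

theorem sm_one (D : Dg G) (p : P) : D.upd p .smooth = D.sm {p} := by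
  have h := sm_upd D ∅ p
  rw [sm_empty] at h
  rw [h]
  rfl

theorem pair_step [Fintype P] {R : Type*} [CommRing R] {z c : R} {f : Dg G → R} (hf : ∀ b, Cw z c b f) {D : Dg G} (hD : PS D) {p : P}
    (h : Big G p) (h1 : D.st p = .pos) (h2 : D.st (seifert G p) = .pos) : f D = f (D.sm {p, seifert G p}) + z * f (D.sm {p}) := by
  have h3 := (hf p).skein D p h.opp
  have h4 : D.upd p .pos = D := by
    have := upd_self D p
    rwa [h1] at this
  have h5 : (D.upd p .neg).st (G.nxt p) = .pos := by
    rw [upd_st_ne _ _ _ _ h.p_ne_y1.symm h.ne, ← D.st_op]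
    exact h2
  have h6 := r2 h hf (D.upd p .neg) (upd_st _ _ _ _ (Or.inl rfl)) h5 (fun i a b => by rw [upd_st_ne _ _ _ _ a b]; exact hD i)
  rw [h4, h6, sm_two D h, sm_one] at h3
  rw [← h3]
  ring

/-- **The expansion at all pairs.** -/
theorem pairs_exp [Fintype P] {R : Type*} [CommRing R] {z c : R} {f : Dg G → R} (hf : ∀ b, Cw z c b f) (ho : ∀ i, G.op i ≠ i) (T : Finset P) :
    ∀ D : Dg G, PS D → (∀ p ∈ T, Big G p) → (∀ p ∈ T, G.lf p = true) → (∀ p ∈ T, G.lf (seifert G p) = true) → (∀ p ∈ T, seifert G p ∉ T) →
      (∀ p ∈ T, D.st p = .pos ∧ D.st (seifert G p) = .pos) →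
      f D = ∑ A ∈ T.powerset, z ^ (T \ A).card * f (D.sm (T ∪ A.image (seifert G))) := by
  induction T using Finset.induction_on with
  | empty =>
    intro D _ _ _ _ _ _
    rw [Finset.powerset_empty, Finset.sum_singleton, Finset.sdiff_empty, Finset.card_empty, pow_zero, one_mul, Finset.image_empty, Finset.union_empty, sm_empty]
  | insert p T hp ih =>
    intro D hD hB hl hl2 hd hs
    have hpI := Finset.mem_insert_self p T
    have hop : ∀ q, G.lf q = true → ∀ q', G.lf q' = true → G.op q ≠ q' := by
      intro q hq q' hq' e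
      have := G.lf_op q (ho q)
      rw [e, hq, hq'] at this
      simp at this
    have hd' : ∀ q ∈ T, seifert G q ∉ T := fun q hq h => hd q (Finset.mem_insert_of_mem hq) (Finset.mem_insert_of_mem h)
    have keep : ∀ S : Finset P, (∀ q ∈ S, q = p ∨ q = seifert G p) → ∀ q ∈ T, (D.sm S).st q = .pos ∧ (D.sm S).st (seifert G q) = .pos := by
      intro S hS q hq
      have hqI := Finset.mem_insert_of_mem (a := q) (b := p) hq
      have hlS : ∀ x ∈ S, G.lf x = true := by
        intro x hx
        rcases hS x hx with rfl | rfl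
        · exact hl _ hpI
        · exact hl2 _ hpI
      constructor
      · rw [sm_st_not]
        · exact (hs q hqI).1
        · intro h
          rcases hS _ h with h1 | h1
          · exact hp (h1 ▸ hq)
          · exact hd p hpI (h1 ▸ hqI)
        · exact fun h => hop q (hl q hqI) _ (hlS _ h) rfl
      · rw [sm_st_not]
        · exact (hs q hqI).2
        · intro h
          rcases hS _ h with h1 | h1
          · exact hd q hqI (h1 ▸ hpI)
          · exact hp ((seifert G).injective h1 ▸ hq)
        · exact fun h => hop _ (hl2 q hqI) _ (hlS _ h) rfl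
    have e1 := pair_step hf hD (hB p hpI) (hs p hpI).1 (hs p hpI).2
    have i1 := ih (D.sm {p, seifert G p}) (hD.sm _) (fun q hq => hB q (Finset.mem_insert_of_mem hq)) (fun q hq => hl q (Finset.mem_insert_of_mem hq))
      (fun q hq => hl2 q (Finset.mem_insert_of_mem hq)) hd' (keep _ (fun q hq => by
        simpa only [Finset.mem_insert, Finset.mem_singleton] using hq))
    have i2 := ih (D.sm {p}) (hD.sm _) (fun q hq => hB q (Finset.mem_insert_of_mem hq)) (fun q hq => hl q (Finset.mem_insert_of_mem hq))
      (fun q hq => hl2 q (Finset.mem_insert_of_mem hq)) hd' (keep _ (fun q hq => Or.inl (Finset.mem_singleton.1 hq)))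
    rw [e1, i1, i2, Finset.sum_powerset_insert hp, Finset.mul_sum, add_comm]
    congr 1
    · refine Finset.sum_congr rfl fun A hA => ?_
      rw [Finset.mem_powerset] at hA
      have hpA : p ∉ A := fun h => hp (hA h)
      have c1 : (insert p T \ A).card = (T \ A).card + 1 := by
        rw [Finset.insert_sdiff_of_notMem T hpA, Finset.card_insert_of_notMem]
        exact fun h => hp (Finset.mem_sdiff.1 h).1
      have c2 : ({p} ∪ (T ∪ A.image (seifert G)) : Finset P) = insert p T ∪ A.image (seifert G) := by
        ext j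
        simp only [Finset.mem_union, Finset.mem_singleton, Finset.mem_insert]
        tauto
      rw [sm_sm, c1, c2]
      ring
    · refine Finset.sum_congr rfl fun A hA => ?_
      rw [Finset.mem_powerset] at hA
      have c1 : insert p T \ insert p A = T \ A := by
        ext j
        simp only [Finset.mem_sdiff, Finset.mem_insert, not_or]
        constructor
        · rintro ⟨rfl | h1, h2, h3⟩
          · exact absurd rfl h2
          · exact ⟨h1, h3⟩
        · rintro ⟨h1, h3⟩
          exact ⟨Or.inr h1, fun h => hp (h ▸ h1), h3⟩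
      have c2 : ({p, seifert G p} ∪ (T ∪ A.image (seifert G)) : Finset P) = insert p T ∪ (insert p A).image (seifert G) := by
        ext j
        simp only [Finset.mem_union, Finset.mem_singleton, Finset.mem_insert, Finset.image_insert]
        tauto
      rw [sm_sm, c1, c2]

end Pool.Agent.Helper2.C5
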