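import Pool.Agent.Helper2.C5.Mirror

/-!
# The symmetry of the weighted state sum

`σ + x = σ⁻¹ + (x + z)` at every letter and the mirror image.
-/

set_option autoImplicit false

namespace Pool.Agent.Helper2.C5

open Polynomial Classical Pool.Agent.Helper85.Exp Pool.Agent.Helper60.EV2 Pool.Agent.Helper43.Pln

variable {P : Type} {G : Sh P}

/-- Make the crossings of `N` negative and then smooth those of `B`. -/
noncomputable def ns (D : Dg G) (N B : Finset P) : Dg G where
  st j := if j ∈ B ∨ G.op j ∈ B then .smooth else if j ∈ N ∨ G.op j ∈ N then .neg else D.st j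
  st_op j := by
    have h1 : (G.op j ∈ B ∨ G.op (G.op j) ∈ B) ↔ (j ∈ B ∨ G.op j ∈ B) := by
      rw [G.op_op, or_comm]
    have h2 : (G.op j ∈ N ∨ G.op (G.op j) ∈ N) ↔ (j ∈ N ∨ G.op j ∈ N) := by
      rw [G.op_op, or_comm]
    simp only [h1, h2, D.st_op]

theorem ns_st (D : Dg G) (N B : Finset P) (j : P) :
    (ns D N B).st j = if j ∈ B ∨ G.op j ∈ B then .smooth else if j ∈ N ∨ G.op j ∈ N then .neg else D.st j := rfl

/-- The skein relation at all crossings of `S`. -/
theorem multi [Fintype P] {R : Type*} [CommRing R] {z : R} {f : Dg G → R}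
    (hs : ∀ (D : Dg G) (i : P), G.op i ≠ i → f (D.upd i .pos) - f (D.upd i .neg) = z * f (D.upd i .smooth)) (D : Dg G) (S : Finset P) :
    S ⊆ lows D → f D = ∑ B ∈ S.powerset, z ^ B.card * f (ns D (S \ B) B) := by
  induction S using Finset.induction_on with
  | empty =>
    intro _
    have e : ns D (∅ \ ∅) ∅ = D := by
      ext j
      simp [ns_st]
    rw [Finset.powerset_empty, Finset.sum_singleton, Finset.card_empty, pow_zero, one_mul, e]
  | insert i S hi ih =>
    intro hS
    have hiL : Low D i := mem_lows.1 (hS (Finset.mem_insert_self i S))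
    have hopS : G.op i ∉ insert i S := by
      intro h
      have h4 := (mem_lows.1 (hS h)).2.1
      rw [G.lf_op _ hiL.1, hiL.2.1] at h4
      simp at h4
    rw [Finset.mem_insert, not_or] at hopS
    rw [ih ((Finset.subset_insert i S).trans hS), Finset.sum_powerset_insert hi, ← Finset.sum_add_distrib]
    refine Finset.sum_congr rfl fun B hB => ?_
    rw [Finset.mem_powerset] at hB
    have hiB : i ∉ B := fun h => hi (hB h)
    have hoB : G.op i ∉ B := fun h => hopS.2 (hB h)
    have e1 : insert i S \ B = insert i (S \ B) := Finset.insert_sdiff_of_notMem S hiB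
    have e2 : insert i S \ insert i B = S \ B := by
      ext j
      simp only [Finset.mem_sdiff, Finset.mem_insert, not_or]
      constructor
      · rintro ⟨rfl | h1, h2, h3⟩
        · exact absurd rfl h2
        · exact ⟨h1, h3⟩
      · rintro ⟨h1, h3⟩
        exact ⟨Or.inr h1, fun h => hi (h ▸ h1), h3⟩
    set E := ns D (S \ B) B with hE
    have hEi : E.st i = .pos := by
      rw [hE, ns_st, if_neg (by rw [not_or]; exact ⟨hiB, hoB⟩), if_neg]
      · exact hiL.2.2
      · rw [not_or]
        exact ⟨fun h => hi (Finset.mem_sdiff.1 h).1, fun h => hopS.2 (Finset.mem_sdiff.1 h).1⟩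
    have h1 := hs E i hiL.1
    have h2 : E.upd i .pos = E := by
      have := upd_self E i
      rwa [hEi] at this
    have h3 : E.upd i .neg = ns D (insert i (S \ B)) B := by
      ext j
      by_cases hj : j = i ∨ j = G.op i
      · rw [upd_st _ _ _ _ hj, ns_st, if_neg, if_pos]
        · rcases hj with rfl | rfl
          · exact Or.inl (Finset.mem_insert_self _ _)
          · right
            rw [G.op_op]
            exact Finset.mem_insert_self _ _
        · rcases hj with rfl | rfl
          · rw [not_or]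
            exact ⟨hiB, hoB⟩
          · rw [G.op_op, not_or]
            exact ⟨hoB, hiB⟩
      · rw [not_or] at hj
        have hj2 : G.op j ≠ i := fun h => hj.2 (by rw [← h, G.op_op])
        rw [upd_st_ne _ _ _ _ hj.1 hj.2, hE, ns_st, ns_st]
        have h4 : (j ∈ insert i (S \ B) ∨ G.op j ∈ insert i (S \ B)) ↔ (j ∈ S \ B ∨ G.op j ∈ S \ B) := by
          simp only [Finset.mem_insert, hj.1, hj2, false_or]
        rw [if_congr h4 rfl rfl]
    have h5 : E.upd i .smooth = ns D (S \ B) (insert i B) := by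
      ext j
      by_cases hj : j = i ∨ j = G.op i
      · rw [upd_st _ _ _ _ hj, ns_st, if_pos]
        rcases hj with rfl | rfl
        · exact Or.inl (Finset.mem_insert_self _ _)
        · right
          rw [G.op_op]
          exact Finset.mem_insert_self _ _
      · rw [not_or] at hj
        have hj2 : G.op j ≠ i := fun h => hj.2 (by rw [← h, G.op_op])
        rw [upd_st_ne _ _ _ _ hj.1 hj.2, hE, ns_st, ns_st]
        have h4 : (j ∈ insert i B ∨ G.op j ∈ insert i B) ↔ (j ∈ B ∨ G.op j ∈ B) := by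
          simp only [Finset.mem_insert, hj.1, hj2, false_or]
        rw [if_congr h4 rfl rfl]
    rw [e1, e2, Finset.card_insert_of_notMem hiB, ← h3, ← h5]
    have h6 : f E = f (E.upd i .neg) + z * f (E.upd i .smooth) := by
      rw [← h1, h2]
      ring
    rw [h6]
    ring

theorem ns_mir [Fintype P] (D : Dg G) (ho : ∀ i, G.op i ≠ i) (hD : ∀ i, G.op i ≠ i → D.st i = .pos ∨ D.st i = .smooth) {B : Finset P}
    (hB : B ⊆ lows D) : ns D (lows D \ B) B = mir (D.sm B) := by
  ext j
  rw [ns_st]
  show _ = flipSt ((D.sm B).st j)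
  by_cases hj : j ∈ B ∨ G.op j ∈ B
  · rw [if_pos hj, sm_st_mem D B j hj]
    rfl
  · rw [if_neg hj]
    rw [not_or] at hj
    rw [sm_st_not D B j hj.1 hj.2]
    rcases hD j (ho j) with h1 | h1
    · rw [h1, if_pos]
      · rfl
      · cases h2 : G.lf j with
        | true => exact Or.inl (Finset.mem_sdiff.2 ⟨mem_lows.2 ⟨ho j, h2, h1⟩, hj.1⟩)
        | false =>
          refine Or.inr (Finset.mem_sdiff.2 ⟨mem_lows.2 ⟨ho _, ?_, ?_⟩, hj.2⟩)
          · rw [G.lf_op _ (ho j), h2]
            rfl
          · rw [D.st_op]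
            exact h1
    · rw [h1, if_neg]
      · rfl
      · rintro (h2 | h2)
        · have := (mem_lows.1 (Finset.mem_sdiff.1 h2).1).2.2
          rw [h1] at this
          cases this
        · have := (mem_lows.1 (Finset.mem_sdiff.1 h2).1).2.2
          rw [D.st_op, h1] at this
          cases this

/-- The weighted sum over the smoothings. -/
noncomputable def wsum [Fintype P] (nab : Dg G → ℤ[X]) (D : Dg G) (z : ℂ) (x : P → ℂ) : ℂ :=
  ∑ A ∈ (lows D).powerset, (∏ i ∈ A, x i) * aeval z (nab (D.sm A))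

theorem wsum_swap [Fintype P] (hG : Plane G) {nab : Dg G → ℤ[X]} (hn : Cs nab) (D : Dg G)
    (hD : ∀ i, G.op i ≠ i → D.st i = .pos ∨ D.st i = .smooth) (z : ℂ) (x : P → ℂ) :
    wsum nab D z x = wsum nab D (-z) (fun i => x i + z) := by
  have hs : ∀ (D : Dg G) (i : P), G.op i ≠ i →
      aeval z (nab (D.upd i .pos)) - aeval z (nab (D.upd i .neg)) = z * aeval z (nab (D.upd i .smooth)) := by
    intro D i hi
    rw [← map_sub, hn.skein D i hi, map_mul, aeval_X]
  have e1 : ∀ A ∈ (lows D).powerset, (∏ i ∈ A, x i) * aeval z (nab (D.sm A)) =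
      ∑ B ∈ (lows D \ A).powerset, (∏ i ∈ A, x i) * (z ^ B.card * aeval (-z) (nab (D.sm (A ∪ B)))) := by
    intro A hA
    rw [Finset.mem_powerset] at hA
    have h1 := multi (f := fun D => aeval z (nab D)) hs (D.sm A) (lows (D.sm A)) (Finset.Subset.refl _)
    rw [h1, Finset.mul_sum, lows_sm D hA]
    refine Finset.sum_congr rfl fun B hB => ?_
    rw [Finset.mem_powerset] at hB
    rw [← lows_sm D hA] at hB ⊢
    rw [ns_mir (D.sm A) hG.cross (pos_or_sm hD A) hB, sm_sm]
    have h2 := mirror hG hn (D.sm (A ∪ B)) (-z)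
    rw [neg_neg] at h2
    rw [h2]
  have e2 : ∀ C ∈ (lows D).powerset, (∏ i ∈ C, (x i + z)) * aeval (-z) (nab (D.sm C)) =
      ∑ A ∈ C.powerset, (∏ i ∈ A, x i) * (z ^ (C \ A).card * aeval (-z) (nab (D.sm C))) := by
    intro C _
    rw [Finset.prod_add, Finset.sum_mul]
    refine Finset.sum_congr rfl fun A _ => ?_
    rw [Finset.prod_const]
    ring
  unfold wsum
  rw [Finset.sum_congr rfl e1, Finset.sum_congr rfl e2, Finset.sum_sigma', Finset.sum_sigma']
  refine Finset.sum_bij' (fun q _ => ⟨q.1 ∪ q.2, q.1⟩) (fun q _ => ⟨q.2, q.1 \ q.2⟩) ?_ ?_ ?_ ?_ ?_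
  · rintro ⟨A, S⟩ hq
    simp only [Finset.mem_sigma, Finset.mem_powerset] at hq ⊢
    exact ⟨Finset.union_subset hq.1 (hq.2.trans Finset.sdiff_subset), Finset.subset_union_left⟩
  · rintro ⟨C, A⟩ hq
    simp only [Finset.mem_sigma, Finset.mem_powerset] at hq ⊢
    exact ⟨hq.2.trans hq.1, Finset.sdiff_subset_sdiff hq.1 (Finset.Subset.refl _)⟩
  · rintro ⟨A, S⟩ hq
    simp only [Finset.mem_sigma, Finset.mem_powerset] at hq
    have hd : Disjoint A S := by
      rw [Finset.disjoint_right]
      intro i hi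
      exact (Finset.mem_sdiff.1 (hq.2 hi)).2
    simp only [Finset.union_sdiff_cancel_left hd]
  · rintro ⟨C, A⟩ hq
    simp only [Finset.mem_sigma, Finset.mem_powerset] at hq
    simp only [Finset.union_sdiff_of_subset hq.2]
  · rintro ⟨A, S⟩ hq
    simp only [Finset.mem_sigma, Finset.mem_powerset] at hq
    have hd : Disjoint A S := by
      rw [Finset.disjoint_right]
      intro i hi
      exact (Finset.mem_sdiff.1 (hq.2 hi)).2
    simp only [Finset.union_sdiff_cancel_left hd]

theorem wsum_state [Fintype P] {nab : Dg G → ℤ[X]} (hn : Cs nab) (b : P) (D : Dg G)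
    (hD : ∀ i, G.op i ≠ i → D.st i = .pos ∨ D.st i = .smooth) (z : ℂ) (x : P → ℂ) :
    wsum nab D z x = ∑ C ∈ (lows D).powerset.filter (fun C => One (D.sm C) b), ∏ i ∈ C, (x i + if Fv (D.sm C) b i then z else 0) := by
  have h1 := (hn.cw b).map (aeval z : ℤ[X] →ₐ[ℤ] ℂ).toRingHom
  have h2 := weighted h1 D hD x
  have e1 : (aeval z : ℤ[X] →ₐ[ℤ] ℂ).toRingHom X = z := aeval_X z
  have e2 : (aeval z : ℤ[X] →ₐ[ℤ] ℂ).toRingHom 1 = 1 := map_one _
  rw [e1, e2] at h2
  simp only [one_mul] at h2
  exact h2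

/-- **The symmetry.** -/
theorem symm_state [Fintype P] (hG : Plane G) {nab : Dg G → ℤ[X]} (hn : Cs nab) (b : P) (D : Dg G)
    (hD : ∀ i, G.op i ≠ i → D.st i = .pos ∨ D.st i = .smooth) (z : ℂ) (x : P → ℂ) :
    ∑ C ∈ (lows D).powerset.filter (fun C => One (D.sm C) b), ∏ i ∈ C, (x i + if Fv (D.sm C) b i then z else 0) =
      ∑ C ∈ (lows D).powerset.filter (fun C => One (D.sm C) b), ∏ i ∈ C, (x i + if Fv (D.sm C) b i then 0 else z) := by
  rw [← wsum_state hn b D hD z x, wsum_swap hG hn D hD z x, wsum_state hn b D hD]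
  refine Finset.sum_congr rfl fun C _ => Finset.prod_congr rfl fun i _ => ?_
  by_cases h : Fv (D.sm C) b i
  · rw [if_pos h, if_pos h]
    ring
  · rw [if_neg h, if_neg h]
    ring

end Pool.Agent.Helper2.C5
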